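import Pool.Agent.W394.BQN.Stm

/-! Subtask BQN-NS (owner helper394, MP_53d700_al): the induction step. -/

set_option autoImplicit false

open Polynomial

noncomputable section

namespace Pool.Agent.W654.BQN

open BQ Pool.Agent.W394.BQN

theorem idemFree_mv_mv (V : Type) [CommRing V] [IsDomain V] [IsPrincipalIdealRing V] (p m : ℕ) :
    IdemFree (MvPolynomial (Fin m) (MvPolynomial (Fin p) V)) := by
  have h := quillen_suslin (m + p) V
  have e : MvPolynomial (Fin (m + p)) V ≃+* MvPolynomial (Fin m) (MvPolynomial (Fin p) V) :=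
    ((MvPolynomial.renameEquiv V finSumFinEquiv.symm).trans
      (MvPolynomial.sumAlgEquiv V (Fin m) (Fin p))).toRingEquiv
  exact IdemFree.of_equiv e h

theorem exists_gen {V W : Type} [CommRing V] [CommRing W] (i : V →+* W) (hi : i.Finite) :
    ∃ (p : ℕ) (w : Fin p → W), Function.Surjective (MvPolynomial.eval₂Hom i w) := by
  letI : Algebra V W := i.toAlgebra
  haveI : Module.Finite V W := hi
  obtain ⟨p, w, hw⟩ := Module.Finite.exists_fin (R := V) (M := W)
  refine ⟨p, w, fun y => ?_⟩
  have hy : y ∈ Submodule.span V (Set.range w) := by rw [hw]; exact Submodule.mem_top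
  rw [Submodule.mem_span_range_iff_exists_fun] at hy
  obtain ⟨c, hc⟩ := hy
  refine ⟨∑ k, MvPolynomial.C (c k) * MvPolynomial.X k, ?_⟩
  rw [map_sum, ← hc]
  refine Finset.sum_congr rfl fun k _ => ?_
  rw [map_mul, MvPolynomial.coe_eval₂Hom, MvPolynomial.eval₂_C, MvPolynomial.eval₂_X,
    Algebra.smul_def]
  rfl

theorem dec_of_node (h : S_DEC) {V C W : Type} [CommRing V] [IsDomain V]
    [IsPrincipalIdealRing V] [CommRing C] [CommRing W] [IsDomain W] [IsPrincipalIdealRing W]
    (j : V →+* C) (i : V →+* W) (l : ℕ) (r : C →+* MvPolynomial (Fin l) W) (hE : E2T W)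
    (hi : i.Finite) (hr : Function.Surjective r) (hrj : ∀ v, r (j v) = MvPolynomial.C (i v)) :
    Dec r := by
  obtain ⟨p, w, hq⟩ := exists_gen i hi
  choose c hc using fun k : Fin p => hr (MvPolynomial.C (w k))
  choose d hd using fun t : Fin l => hr (MvPolynomial.X t)
  let g : MvPolynomial (Fin l) (MvPolynomial (Fin p) V) →+* C :=
    MvPolynomial.eval₂Hom (MvPolynomial.eval₂Hom j c) d
  have h1 : r.comp (MvPolynomial.eval₂Hom j c) =
      (MvPolynomial.C).comp (MvPolynomial.eval₂Hom i w) := by
    apply MvPolynomial.ringHom_ext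
    · intro v
      simp only [RingHom.comp_apply, MvPolynomial.coe_eval₂Hom, MvPolynomial.eval₂_C]
      exact hrj v
    · intro k
      simp only [RingHom.comp_apply, MvPolynomial.coe_eval₂Hom, MvPolynomial.eval₂_X]
      exact hc k
  have h2 : r.comp g = MvPolynomial.map (MvPolynomial.eval₂Hom i w) := by
    apply MvPolynomial.ringHom_ext
    · intro a
      simp only [g, RingHom.comp_apply, MvPolynomial.coe_eval₂Hom, MvPolynomial.eval₂_C,
        MvPolynomial.map_C]
      have := RingHom.congr_fun h1 a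
      simpa only [RingHom.comp_apply, MvPolynomial.coe_eval₂Hom] using this
    · intro t
      simp only [g, RingHom.comp_apply, MvPolynomial.coe_eval₂Hom, MvPolynomial.eval₂_X,
        MvPolynomial.map_X]
      exact hd t
  apply Dec.of_comp g r
  rw [h2]
  exact h l (MvPolynomial (Fin p) V) (fun m => idemFree_mv_mv V p m) W hE _ hq

theorem t_NS (h : S_DEC) : S_NS := by
  intro V C Ω _ _ _ _ _ _ j ι u hL hC hΩ hN
  obtain ⟨hu0, W, _, _, _, i, l, r, hE, hi, hr, hk, hrj⟩ := hN
  have hu : Prime u := prime_of_red u hu0 r hk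
  have ha : IdemFree C[X] := var_poly j ι hL hC hΩ
  have hb : IdemFree (LaurentPolynomial C) := var_laurent j ι hL hC hΩ
  have hc : IdemFree (MvPolynomial (Fin l) W)[X] :=
    IdemFree.of_equiv (MvPolynomial.finSuccEquiv W l).toRingEquiv (quillen_suslin (l + 1) W)
  exact step u hu r hr hk ha hb hc (dec_of_node h j i l r hE hi hr hrj)

end Pool.Agent.W654.BQN
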